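import Pool.Agent.Q61.ND.Stm

/-!
# Project ND, job TOR: the function on the torus
-/

set_option autoImplicit false

open MeasureTheory Set Filter Topology Real

noncomputable section

namespace Pool.Agent.Q238.ND

open Pool.Agent.Q61.AD (P Q Per dt dx dy lap Tst D)
open Pool.Agent.Q61.ND

lemma dx_eq {ψ : P → ℝ} (hψ : ContDiff ℝ (⊤ : ℕ∞) ψ) : dx ψ = fun x => fderiv ℝ ψ x (1, 0) := by
  funext x
  have h1 : HasDerivAt (fun s : ℝ => ((s, x.2) : P)) (1, 0) x.1 :=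
    (hasDerivAt_id x.1).prodMk (hasDerivAt_const x.1 x.2)
  have h2 : HasFDerivAt ψ (fderiv ℝ ψ x) (x.1, x.2) :=
    (hψ.differentiable (by simp) x).hasFDerivAt
  exact (h2.comp_hasDerivAt x.1 h1).deriv

lemma dy_eq {ψ : P → ℝ} (hψ : ContDiff ℝ (⊤ : ℕ∞) ψ) : dy ψ = fun x => fderiv ℝ ψ x (0, 1) := by
  funext x
  have h1 : HasDerivAt (fun s : ℝ => ((x.1, s) : P)) (0, 1) x.2 :=
    (hasDerivAt_const x.2 x.1).prodMk (hasDerivAt_id x.2)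
  have h2 : HasFDerivAt ψ (fderiv ℝ ψ x) (x.1, x.2) :=
    (hψ.differentiable (by simp) x).hasFDerivAt
  exact (h2.comp_hasDerivAt x.2 h1).deriv

lemma dx_smooth {ψ : P → ℝ} (hψ : ContDiff ℝ (⊤ : ℕ∞) ψ) : ContDiff ℝ (⊤ : ℕ∞) (dx ψ) := by
  rw [dx_eq hψ]
  exact (hψ.fderiv_right (m := (⊤ : ℕ∞)) (by simp)).clm_apply contDiff_const

lemma dy_smooth {ψ : P → ℝ} (hψ : ContDiff ℝ (⊤ : ℕ∞) ψ) : ContDiff ℝ (⊤ : ℕ∞) (dy ψ) := by
  rw [dy_eq hψ]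
  exact (hψ.fderiv_right (m := (⊤ : ℕ∞)) (by simp)).clm_apply contDiff_const

lemma dx_add {ψ φ : P → ℝ} (hψ : ContDiff ℝ (⊤ : ℕ∞) ψ) (hφ : ContDiff ℝ (⊤ : ℕ∞) φ) :
    dx (ψ + φ) = dx ψ + dx φ := by
  have h0 : ContDiff ℝ (⊤ : ℕ∞) (ψ + φ) := hψ.add hφ
  rw [dx_eq hψ, dx_eq hφ, dx_eq h0]
  funext x
  have := fderiv_add (hψ.differentiable (by simp) x) (hφ.differentiable (by simp) x)
  rw [this]
  rfl

lemma dy_add {ψ φ : P → ℝ} (hψ : ContDiff ℝ (⊤ : ℕ∞) ψ) (hφ : ContDiff ℝ (⊤ : ℕ∞) φ) :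
    dy (ψ + φ) = dy ψ + dy φ := by
  have h0 : ContDiff ℝ (⊤ : ℕ∞) (ψ + φ) := hψ.add hφ
  rw [dy_eq hψ, dy_eq hφ, dy_eq h0]
  funext x
  have := fderiv_add (hψ.differentiable (by simp) x) (hφ.differentiable (by simp) x)
  rw [this]
  rfl

lemma dx_smul {ψ : P → ℝ} (c : ℝ) (hψ : ContDiff ℝ (⊤ : ℕ∞) ψ) : dx (c • ψ) = c • dx ψ := by
  have h0 : ContDiff ℝ (⊤ : ℕ∞) (c • ψ) := hψ.const_smul c
  rw [dx_eq hψ, dx_eq h0]
  funext x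
  have := fderiv_const_smul (hψ.differentiable (by simp) x) c
  rw [this]
  rfl

lemma dy_smul {ψ : P → ℝ} (c : ℝ) (hψ : ContDiff ℝ (⊤ : ℕ∞) ψ) : dy (c • ψ) = c • dy ψ := by
  have h0 : ContDiff ℝ (⊤ : ℕ∞) (c • ψ) := hψ.const_smul c
  rw [dy_eq hψ, dy_eq h0]
  funext x
  have := fderiv_const_smul (hψ.differentiable (by simp) x) c
  rw [this]
  rfl

lemma LL_add (b : P → P) {ψ φ : P → ℝ} (hψ : ContDiff ℝ (⊤ : ℕ∞) ψ)
    (hφ : ContDiff ℝ (⊤ : ℕ∞) φ) (x : P) : LL b (ψ + φ) x = LL b ψ x + LL b φ x := by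
  unfold LL lap
  rw [dx_add hψ hφ, dy_add hψ hφ, dx_add (dx_smooth hψ) (dx_smooth hφ),
    dy_add (dy_smooth hψ) (dy_smooth hφ)]
  simp only [Pi.add_apply]
  ring

lemma LL_smul (b : P → P) (c : ℝ) {ψ : P → ℝ} (hψ : ContDiff ℝ (⊤ : ℕ∞) ψ) (x : P) :
    LL b (c • ψ) x = c * LL b ψ x := by
  unfold LL lap
  rw [dx_smul c hψ, dy_smul c hψ, dx_smul c (dx_smooth hψ), dy_smul c (dy_smooth hψ)]
  simp only [Pi.smul_apply, smul_eq_mul]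
  ring

lemma bdd_Q {g : P → ℝ} (hg : Continuous g) : ∃ M : ℝ, 0 ≤ M ∧ ∀ x ∈ Q, |g x| ≤ M := by
  obtain ⟨M, hM⟩ := (isCompact_Icc.prod isCompact_Icc :
    IsCompact (Icc (0 : ℝ) 1 ×ˢ Icc (0 : ℝ) 1)).exists_bound_of_continuousOn hg.continuousOn
  refine ⟨max M 0, le_max_right _ _, fun x hx => ?_⟩
  exact (hM x ⟨⟨hx.1.1, hx.1.2.le⟩, ⟨hx.2.1, hx.2.2.le⟩⟩).trans (le_max_left _ _)

lemma int_LL {U : P → ℝ} {b : P → P} (hU : Measurable U)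
    (hUi : IntegrableOn (fun x => U x ^ 2) Q) (hb : Measurable b)
    (hbi : IntegrableOn (fun x => ‖b x‖ ^ 2) Q) {ψ : P → ℝ} (hψ : ContDiff ℝ (⊤ : ℕ∞) ψ) :
    IntegrableOn (fun x => U x * (ψ x - LL b ψ x)) Q := by
  have cx := (dx_smooth hψ).continuous
  have cy := (dy_smooth hψ).continuous
  have cl : Continuous (lap ψ) := by
    unfold lap
    exact (dx_smooth (dx_smooth hψ)).continuous.add (dy_smooth (dy_smooth hψ)).continuous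
  obtain ⟨M1, p1, h1⟩ := bdd_Q (hψ.continuous.sub cl)
  obtain ⟨M2, p2, h2⟩ := bdd_Q cx
  obtain ⟨M3, p3, h3⟩ := bdd_Q cy
  have hvol : volume Q < ⊤ := by
    refine lt_of_le_of_lt (measure_mono (Set.prod_mono Ico_subset_Icc_self Ico_subset_Icc_self))
      (isCompact_Icc.prod isCompact_Icc :
        IsCompact (Icc (0 : ℝ) 1 ×ˢ Icc (0 : ℝ) 1)).measure_lt_top
  have hc : IntegrableOn (fun _ : P => (1 : ℝ)) Q := by
    rw [integrableOn_const_iff]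
    exact Or.inr hvol
  have hdom : IntegrableOn (fun x => (M1 + M2 + M3) * (1 + U x ^ 2 + (U x ^ 2 + ‖b x‖ ^ 2))) Q :=
    ((hc.add hUi).add (hUi.add hbi)).const_mul _
  have hmeas : AEStronglyMeasurable (fun x => U x * (ψ x - LL b ψ x)) (volume.restrict Q) := by
    refine Measurable.aestronglyMeasurable ?_
    refine hU.mul (hψ.continuous.measurable.sub ?_)
    unfold LL
    exact (cl.measurable.add (hb.fst.mul cx.measurable)).add (hb.snd.mul cy.measurable)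
  refine Integrable.mono' hdom hmeas ?_
  have hQ : MeasurableSet Q := measurableSet_Ico.prod measurableSet_Ico
  filter_upwards [ae_restrict_mem hQ] with x hx
  have b1 : |(b x).1| ≤ ‖b x‖ := norm_fst_le (b x)
  have b2 : |(b x).2| ≤ ‖b x‖ := norm_snd_le (b x)
  have hn : 0 ≤ ‖b x‖ := norm_nonneg _
  have e : ψ x - LL b ψ x = (ψ x - lap ψ x) - (b x).1 * dx ψ x - (b x).2 * dy ψ x := by
    unfold LL
    ring
  have k1 : |ψ x - lap ψ x| ≤ M1 := h1 x hx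
  have k2 : |(b x).1 * dx ψ x| ≤ ‖b x‖ * M2 := by
    rw [abs_mul]
    exact mul_le_mul b1 (h2 x hx) (abs_nonneg _) hn
  have k3 : |(b x).2 * dy ψ x| ≤ ‖b x‖ * M3 := by
    rw [abs_mul]
    exact mul_le_mul b2 (h3 x hx) (abs_nonneg _) hn
  have k4 : |ψ x - LL b ψ x| ≤ M1 + ‖b x‖ * M2 + ‖b x‖ * M3 := by
    rw [e]
    calc |(ψ x - lap ψ x) - (b x).1 * dx ψ x - (b x).2 * dy ψ x|
        ≤ |(ψ x - lap ψ x) - (b x).1 * dx ψ x| + |(b x).2 * dy ψ x| := abs_sub _ _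
      _ ≤ |ψ x - lap ψ x| + |(b x).1 * dx ψ x| + |(b x).2 * dy ψ x| := by
          linarith [abs_sub (ψ x - lap ψ x) ((b x).1 * dx ψ x)]
      _ ≤ _ := by linarith
  have hU0 := abs_nonneg (U x)
  have q1 : |U x| ≤ 1 + U x ^ 2 := by
    nlinarith [sq_abs (U x), sq_nonneg (|U x| - 1)]
  have q2 : |U x| * ‖b x‖ ≤ U x ^ 2 + ‖b x‖ ^ 2 := by
    nlinarith [sq_abs (U x), sq_nonneg (|U x| - ‖b x‖), sq_nonneg (‖b x‖), sq_nonneg (U x)]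
  have s1 : 0 ≤ U x ^ 2 := sq_nonneg _
  have s2 : 0 ≤ ‖b x‖ ^ 2 := sq_nonneg _
  rw [Real.norm_eq_abs, abs_mul]
  calc |U x| * |ψ x - LL b ψ x| ≤ |U x| * (M1 + ‖b x‖ * M2 + ‖b x‖ * M3) :=
        mul_le_mul_of_nonneg_left k4 hU0
    _ = M1 * |U x| + (M2 + M3) * (|U x| * ‖b x‖) := by ring
    _ ≤ M1 * (1 + U x ^ 2) + (M2 + M3) * (U x ^ 2 + ‖b x‖ ^ 2) :=
        add_le_add (mul_le_mul_of_nonneg_left q1 p1)
          (mul_le_mul_of_nonneg_left q2 (add_nonneg p2 p3))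
    _ ≤ (M1 + M2 + M3) * (1 + U x ^ 2 + (U x ^ 2 + ‖b x‖ ^ 2)) := by
        have t1 : 0 ≤ M1 * (U x ^ 2 + ‖b x‖ ^ 2) := mul_nonneg p1 (add_nonneg s1 s2)
        have t2 : 0 ≤ (M2 + M3) * (1 + U x ^ 2) :=
          mul_nonneg (add_nonneg p2 p3) (by linarith)
        nlinarith

theorem tor (h : S_bpa) (h1 : S_bpb) (h2 : S_lax) (h3 : S_upm) (h4 : S_fun) : S_tor := by
  intro W hW
  obtain ⟨hbm, hbp, hbi, -, -⟩ := h
  obtain ⟨hUm, hUp, hUi⟩ := h3 W hW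
  obtain ⟨C, hC⟩ := h4 W hW
  let f : (P → ℝ) → ℝ := fun ψ => ∫ x in Q, UP W x * (ψ x - LL bP ψ x)
  have hadd : ∀ ψ₁ ψ₂, SP ψ₁ → SP ψ₂ → f (ψ₁ + ψ₂) = f ψ₁ + f ψ₂ := by
    intro ψ₁ ψ₂ s1 s2
    show ∫ x in Q, UP W x * ((ψ₁ + ψ₂) x - LL bP (ψ₁ + ψ₂) x) =
      (∫ x in Q, UP W x * (ψ₁ x - LL bP ψ₁ x)) + ∫ x in Q, UP W x * (ψ₂ x - LL bP ψ₂ x)
    rw [← integral_add (int_LL hUm hUi hbm hbi s1.1) (int_LL hUm hUi hbm hbi s2.1)]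
    refine integral_congr_ae (Eventually.of_forall fun x => ?_)
    show UP W x * ((ψ₁ + ψ₂) x - LL bP (ψ₁ + ψ₂) x) =
      UP W x * (ψ₁ x - LL bP ψ₁ x) + UP W x * (ψ₂ x - LL bP ψ₂ x)
    rw [LL_add bP s1.1 s2.1, Pi.add_apply]
    ring
  have hsmul : ∀ (c : ℝ) (ψ : P → ℝ), SP ψ → f (c • ψ) = c * f ψ := by
    intro c ψ s
    show ∫ x in Q, UP W x * ((c • ψ) x - LL bP (c • ψ) x) =
      c * ∫ x in Q, UP W x * (ψ x - LL bP ψ x)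
    rw [← integral_const_mul]
    refine integral_congr_ae (Eventually.of_forall fun x => ?_)
    show UP W x * ((c • ψ) x - LL bP (c • ψ) x) = c * (UP W x * (ψ x - LL bP ψ x))
    rw [LL_smul bP c s.1, Pi.smul_apply, smul_eq_mul]
    ring
  obtain ⟨w, w₁, w₂, m, m1, m2, per, i, ig, gx, gy, eq⟩ :=
    h2 bP hbm hbp hbi h1 f hadd hsmul ⟨C, hC⟩
  refine ⟨w, w₁, w₂, m, m1, m2, per, i, ig, gx, gy, fun ψ hψ => ?_⟩
  have e1 : ∫ x in Q, (UP W x - w x) * (ψ x - LL bP ψ x) =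
      (∫ x in Q, UP W x * (ψ x - LL bP ψ x)) - ∫ x in Q, w x * (ψ x - LL bP ψ x) := by
    rw [← integral_sub (int_LL hUm hUi hbm hbi hψ.1) (int_LL m i hbm hbi hψ.1)]
    refine integral_congr_ae (Eventually.of_forall fun x => ?_)
    show (UP W x - w x) * (ψ x - LL bP ψ x) =
      UP W x * (ψ x - LL bP ψ x) - w x * (ψ x - LL bP ψ x)
    ring
  rw [e1, eq ψ hψ]
  exact sub_self _

end Pool.Agent.Q238.ND
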