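import Pool.Agent.Q61.ND.Stm

/-!
# Project ND, jobs TRA and UPM: translation to the disc, the singular function on the torus
-/

set_option autoImplicit false

open MeasureTheory Set Filter Topology Real

noncomputable section

namespace Pool.Agent.Q238.ND

open Pool.Agent.Q61.AD (P Q Per dt dx dy lap Tst D)
open Pool.Agent.Q61.ND

lemma rs_nonneg (x : P) : 0 ≤ rs x := by
  unfold rs
  positivity

lemma exp_neg_two : Real.exp (-2) < 1 / 4 := by
  have h1 : (5 : ℝ) ≤ Real.exp 2 := by
    have := Real.quadratic_le_exp_of_nonneg (show (0 : ℝ) ≤ 2 by norm_num)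
    norm_num at this
    linarith
  rw [Real.exp_neg, one_div]
  exact inv_strictAnti₀ (by norm_num) (by linarith)

lemma measurableSet_Q : MeasurableSet Q := measurableSet_Ico.prod measurableSet_Ico

theorem tra : S_tra := by
  intro f g hf
  set c : P := (1 / 2, 1 / 2) with hc
  let K : P → ℝ := fun x => f (x - c) * g x
  let k : P → ℝ := fun x => f x * g (x.1 + 1 / 2, x.2 + 1 / 2)
  have hkK : ∀ y, k y = K (y + c) := by
    intro y
    show f y * g (y.1 + 1 / 2, y.2 + 1 / 2) = f (y + c - c) * g (y + c)
    rw [add_sub_cancel_right]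
    rfl
  have hKk : ∀ y, K y = k (y - c) := by
    intro y
    rw [hkK, sub_add_cancel]
  have hQ : ∀ x ∈ Q, f (fr x) * g x = K x := by
    intro x hx
    have h1 : fr x = x - c := by
      have e1 : Int.fract x.1 = x.1 := Int.fract_eq_self.2 ⟨hx.1.1, hx.1.2⟩
      have e2 : Int.fract x.2 = x.2 := Int.fract_eq_self.2 ⟨hx.2.1, hx.2.2⟩
      unfold fr
      rw [e1, e2]
      rfl
    show f (fr x) * g x = f (x - c) * g x
    rw [h1]
  have hKs : ∀ x, x ∉ Q → K x = 0 := by
    intro x hx
    have h0 : f (x - c) = 0 := by
      apply hf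
      by_contra hcon
      rw [not_or, not_le] at hcon
      apply hx
      have h4 : (x.1 - 1 / 2) ^ 2 + (x.2 - 1 / 2) ^ 2 < 1 / 4 := hcon.2.trans exp_neg_two
      have a1 := sq_nonneg (x.1 - 1 / 2)
      have a2 := sq_nonneg (x.2 - 1 / 2)
      refine ⟨⟨?_, ?_⟩, ⟨?_, ?_⟩⟩ <;> nlinarith
    show f (x - c) * g x = 0
    rw [h0, zero_mul]
  have hks : ∀ x, x ∉ Dc 1 → k x = 0 := by
    intro x hx
    have h0 : f x = 0 := by
      apply hf
      by_contra hcon
      rw [not_or, not_le] at hcon
      apply hx
      refine ⟨lt_of_le_of_ne (rs_nonneg x) (Ne.symm hcon.1), ?_⟩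
      rw [mul_one]
      exact hcon.2
    show f x * g (x.1 + 1 / 2, x.2 + 1 / 2) = 0
    rw [h0, zero_mul]
  constructor
  · calc ∫ x in Q, f (fr x) * g x = ∫ x in Q, K x := setIntegral_congr_fun measurableSet_Q hQ
      _ = ∫ x, K x := setIntegral_eq_integral_of_forall_compl_eq_zero hKs
      _ = ∫ y, K (y + c) := (integral_add_right_eq_self K c).symm
      _ = ∫ y, k y := integral_congr_ae (Eventually.of_forall fun y => (hkK y).symm)
      _ = ∫ y in Dc 1, k y := (setIntegral_eq_integral_of_forall_compl_eq_zero hks).symm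
  · have s1 : IntegrableOn (fun x => f (fr x) * g x) Q ↔ IntegrableOn K Q :=
      integrableOn_congr_fun hQ measurableSet_Q
    have s2 : IntegrableOn K Q ↔ Integrable K :=
      integrableOn_iff_integrable_of_support_subset fun x hx => by
        by_contra h
        exact hx (hKs x h)
    have s3 : IntegrableOn k (Dc 1) ↔ Integrable k :=
      integrableOn_iff_integrable_of_support_subset fun x hx => by
        by_contra h
        exact hx (hks x h)
    rw [s1, s2]
    show Integrable K ↔ IntegrableOn k (Dc 1)
    rw [s3]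
    constructor
    · intro h
      have h1 := h.comp_add_right c
      exact h1.congr (Eventually.of_forall fun y => (hkK y).symm)
    · intro h
      have h1 := h.comp_sub_right c
      exact h1.congr (Eventually.of_forall fun y => (hKk y).symm)

lemma chi_mem (x : P) : 0 ≤ chi x ∧ chi x ≤ 1 := by
  unfold chi
  have h1 := Real.smoothTransition.nonneg ((rs x - exp (-46)) / (exp (-44) - exp (-46)))
  have h2 := Real.smoothTransition.le_one ((rs x - exp (-46)) / (exp (-44) - exp (-46)))
  constructor <;> linarith

lemma chi_zero {x : P} (h : exp (-44) ≤ rs x) : chi x = 0 := by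
  unfold chi
  have h0 : Real.exp (-46) < Real.exp (-44) := Real.exp_lt_exp.2 (by norm_num)
  rw [Real.smoothTransition.one_of_one_le, sub_self]
  rw [le_div_iff₀ (by linarith)]
  linarith

lemma measurable_rs : Measurable rs := by
  unfold rs
  fun_prop

lemma measurable_ls : Measurable ls := by
  unfold ls
  exact (Real.measurable_log.comp measurable_rs).const_mul _

lemma measurable_chi : Measurable chi := by
  unfold chi
  exact ((Real.smoothTransition.continuous.measurable.comp
    ((measurable_rs.sub_const _).div_const _))).const_sub 1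

lemma measurable_U0c : Measurable U0c := by
  unfold U0c
  have h1 := measurable_rs
  have h2 := measurable_ls
  fun_prop

lemma measurable_fr : Measurable fr := by
  unfold fr
  fun_prop

theorem upm (h : S_tra) (h1 : S_sqi) : S_upm := by
  intro W hW
  have hm : Measurable fun x : P => chi x * (U0c x - W x) :=
    measurable_chi.mul (measurable_U0c.sub hW.meas)
  refine ⟨hm.comp measurable_fr, ?_, ?_⟩
  · intro x y
    have e1 : fr (x + 1, y) = fr (x, y) := by
      unfold fr
      simp only [Int.fract_add_one]
    have e2 : fr (x, y + 1) = fr (x, y) := by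
      unfold fr
      simp only [Int.fract_add_one]
    constructor
    · show chi (fr (x + 1, y)) * (U0c (fr (x + 1, y)) - W (fr (x + 1, y))) = _
      rw [e1]
      rfl
    · show chi (fr (x, y + 1)) * (U0c (fr (x, y + 1)) - W (fr (x, y + 1))) = _
      rw [e2]
      rfl
  · -- the square without the origin
    classical
    let f : P → ℝ := fun x => if rs x = 0 then 0 else (chi x * (U0c x - W x)) ^ 2
    have hf0 : ∀ x, rs x = 0 ∨ exp (-2) ≤ rs x → f x = 0 := by
      rintro x (hx | hx)
      · exact if_pos hx
      · have h3 : chi x = 0 := chi_zero (le_trans (Real.exp_le_exp.2 (by norm_num)) hx)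
        show (if rs x = 0 then 0 else (chi x * (U0c x - W x)) ^ 2) = 0
        rw [h3]
        simp
    have hfm : Measurable f :=
      Measurable.ite (measurable_rs (measurableSet_singleton 0)) measurable_const (hm.pow_const 2)
    have hfD : Integrable f := by
      have hs : Function.support f ⊆ Dc 21 := by
        intro x hx
        by_contra hcon
        apply hx
        show (if rs x = 0 then 0 else (chi x * (U0c x - W x)) ^ 2) = 0
        by_cases h0 : rs x = 0
        · rw [if_pos h0]
        · rw [if_neg h0]
          have hpos : 0 < rs x := lt_of_le_of_ne (rs_nonneg x) (Ne.symm h0)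
          have hge : exp (-2 * 21) ≤ rs x := by
            by_contra hlt
            exact hcon ⟨hpos, not_le.1 hlt⟩
          rw [chi_zero (le_trans (Real.exp_le_exp.2 (by norm_num)) hge)]
          ring
      rw [← integrableOn_iff_integrable_of_support_subset hs]
      refine Integrable.mono' (h1.2 W hW.meas hW.int) hfm.aestronglyMeasurable ?_
      refine Eventually.of_forall fun x => ?_
      show ‖(if rs x = 0 then 0 else (chi x * (U0c x - W x)) ^ 2)‖ ≤ (U0c x - W x) ^ 2
      by_cases h0 : rs x = 0
      · rw [if_pos h0, norm_zero]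
        positivity
      · rw [if_neg h0, Real.norm_of_nonneg (sq_nonneg _), mul_pow]
        have h3 := chi_mem x
        have h4 : chi x ^ 2 ≤ 1 := by nlinarith [h3.1, h3.2]
        nlinarith [sq_nonneg (U0c x - W x)]
    have hI := (h f (fun _ => 1) hf0).2.2 (by
      simp only [mul_one]
      exact hfD.integrableOn)
    simp only [mul_one] at hI
    refine hI.congr ?_
    have hne : ∀ᵐ x ∂(volume : Measure P), x ≠ (1 / 2, 1 / 2) := by
      rw [ae_iff]
      simp
    filter_upwards [ae_restrict_of_ae hne, ae_restrict_mem measurableSet_Q] with x hx hxQ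
    have hr : rs (fr x) ≠ 0 := by
      intro h0
      apply hx
      have e1 : Int.fract x.1 = x.1 := Int.fract_eq_self.2 ⟨hxQ.1.1, hxQ.1.2⟩
      have e2 : Int.fract x.2 = x.2 := Int.fract_eq_self.2 ⟨hxQ.2.1, hxQ.2.2⟩
      have h2 : (Int.fract x.1 - 1 / 2) ^ 2 + (Int.fract x.2 - 1 / 2) ^ 2 = 0 := h0
      rw [e1, e2] at h2
      have a1 := sq_nonneg (x.1 - 1 / 2)
      have a2 := sq_nonneg (x.2 - 1 / 2)
      have b1 : x.1 - 1 / 2 = 0 := pow_eq_zero_iff two_ne_zero |>.1 (by linarith)
      have b2 : x.2 - 1 / 2 = 0 := pow_eq_zero_iff two_ne_zero |>.1 (by linarith)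
      exact Prod.ext (by linarith) (by linarith)
    show (if rs (fr x) = 0 then 0 else (chi (fr x) * (U0c (fr x) - W (fr x))) ^ 2) = _
    rw [if_neg hr]
    rfl

end Pool.Agent.Q238.ND
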